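import Mathlib

/-!
# There is no weak `M`-structure of type `(Ã₁, m)` with `m ≥ 2`

If `𝓛 = Hom(V, W)²` then the element `1 = (X, Y)` of `𝓛` is a pair of maps `V → W`, the subspace
`𝒜 = 1 · End V` consists of the pairs `(Xa, Ya)` and `ℬ = End W · 1` of the pairs `(bX, bY)`. Hence
`𝒜 ∩ ℬ` is the endomorphism ring of the Kronecker module `(X, Y)`, and a Kronecker module of
dimension vector `(m, m)`, `m ≥ 2`, always has an endomorphism which is not a scalar.
-/

set_option autoImplicit false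

namespace Pool.Agent.Results.MP_b9cab9_al.NoKronecker

open MulOpposite Matrix

/-- The data of a weak `M`-structure on the space `L`. The subspaces `𝒜` and `ℬ` of `L` with
their multiplications are given as algebras `A` and `B` with linear maps `iA`, `iB` to `L`; `lact`
is the left action of `ℬ`, `ract` is the right action of `𝒜`, `form` is the bilinear form. -/
structure MData (L A B : Type) [AddCommGroup L] [Module ℂ L] [Ring A] [Algebra ℂ A]
    [Ring B] [Algebra ℂ B] where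
  iA : A →ₗ[ℂ] L
  iB : B →ₗ[ℂ] L
  lact : B →ₐ[ℂ] Module.End ℂ L
  ract : Aᵐᵒᵖ →ₐ[ℂ] Module.End ℂ L
  form : LinearMap.BilinForm ℂ L

section

variable {L A B : Type} [AddCommGroup L] [Module ℂ L] [Ring A] [Algebra ℂ A] [Ring B] [Algebra ℂ B]

/-- `A` and `B` are embedded as subspaces whose intersection is the line spanned by the common
unit `1`. -/
def MData.Embedded (S : MData L A B) : Prop :=
  Function.Injective S.iA ∧ Function.Injective S.iB ∧ S.iA 1 = S.iB 1 ∧ S.iA 1 ≠ 0 ∧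
    ∀ a b, S.iA a = S.iB b → ∃ t : ℂ, S.iA a = t • S.iA 1

/-- The actions commute and restrict to the multiplications of `B` and of `A`. -/
def MData.Acts (S : MData L A B) : Prop :=
  (∀ (b : B) (a : A) (v : L), S.lact b (S.ract (op a) v) = S.ract (op a) (S.lact b v)) ∧
    (∀ b b' : B, S.lact b (S.iB b') = S.iB (b * b')) ∧
    ∀ a a' : A, S.ract (op a') (S.iA a) = S.iA (a * a')

/-- The form is symmetric and nondegenerate. -/
def MData.Nondegenerate (S : MData L A B) : Prop :=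
  (∀ v w, S.form v w = S.form w v) ∧ ∀ v, (∀ w, S.form v w = 0) → v = 0

/-- `(a₁, a₂) = (b₁, b₂) = 0`. -/
def MData.Isotropic (S : MData L A B) : Prop :=
  (∀ a a' : A, S.form (S.iA a) (S.iA a') = 0) ∧ ∀ b b' : B, S.form (S.iB b) (S.iB b') = 0

/-- `(b₁b₂, v) = (b₁, b₂v)`. -/
def MData.LeftInvariant (S : MData L A B) : Prop :=
  ∀ (b b' : B) (v : L), S.form (S.iB (b * b')) v = S.form (S.iB b) (S.lact b' v)

/-- `(v, a₁a₂) = (va₁, a₂)`. -/
def MData.RightInvariant (S : MData L A B) : Prop :=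
  ∀ (a a' : A) (v : L), S.form v (S.iA (a * a')) = S.form (S.ract (op a) v) (S.iA a')

/-- `S` is a weak `M`-structure. -/
def MData.IsWeakMStructure (S : MData L A B) : Prop :=
  S.Embedded ∧ S.Acts ∧ S.Nondegenerate ∧ S.Isotropic ∧
    S.LeftInvariant ∧ S.RightInvariant

end

/-- A bipartite diagram with its minimal positive imaginary root `J`: the vertices of the two
colour classes are the elements of `Fin r` and `Fin s`, there are `edges i j` edges between `i` and
`j`, and `J = (JV, JW)`. -/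
structure Diagram where
  r : ℕ
  s : ℕ
  edges : Fin r → Fin s → ℕ
  JV : Fin r → ℕ
  JW : Fin s → ℕ

/-- The diagram `Ã₁`: two vertices joined by a double edge, with `J = (1, 1)`. -/
def affineA1 : Diagram where
  r := 1
  s := 1
  edges := fun _ _ => 2
  JV := fun _ => 1
  JW := fun _ => 1

/-- The homomorphisms `π i : A → End(ℂ ^ (d i))` give an isomorphism `A ≅ ⨁ᵢ End(ℂ ^ (d i))`. -/
def IsSplit {A : Type} [Ring A] [Algebra ℂ A] {r : ℕ} (d : Fin r → ℕ)
    (π : ∀ i, A →ₐ[ℂ] Matrix (Fin (d i)) (Fin (d i)) ℂ) : Prop :=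
  Function.Bijective fun (a : A) (i : Fin r) => π i a

section

variable {L A B : Type} [AddCommGroup L] [Module ℂ L] [Ring A] [Algebra ℂ A] [Ring B] [Algebra ℂ B]

/-- The projections `πL i j k : L → Hom(Vᵢ, Wⱼ)`, `k` an edge between `i` and `j`, are compatible
with the left actions of `B` and `⨁ⱼ End(Wⱼ)`. -/
def LeftCompatible (S : MData L A B) (D : Diagram) (dV : Fin D.r → ℕ) (dW : Fin D.s → ℕ)
    (πB : ∀ j, B →ₐ[ℂ] Matrix (Fin (dW j)) (Fin (dW j)) ℂ)
    (πL : ∀ i j, Fin (D.edges i j) → L →ₗ[ℂ] Matrix (Fin (dW j)) (Fin (dV i)) ℂ) : Prop :=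
  ∀ (b : B) (v : L) i j k, πL i j k (S.lact b v) = πB j b * πL i j k v

/-- The projections `πL i j k : L → Hom(Vᵢ, Wⱼ)`, `k` an edge between `i` and `j`, are compatible
with the right actions of `A` and `⨁ᵢ End(Vᵢ)`. -/
def RightCompatible (S : MData L A B) (D : Diagram) (dV : Fin D.r → ℕ) (dW : Fin D.s → ℕ)
    (πA : ∀ i, A →ₐ[ℂ] Matrix (Fin (dV i)) (Fin (dV i)) ℂ)
    (πL : ∀ i j, Fin (D.edges i j) → L →ₗ[ℂ] Matrix (Fin (dW j)) (Fin (dV i)) ℂ) : Prop :=
  ∀ (a : A) (v : L) i j k, πL i j k (S.ract (op a) v) = πL i j k v * πA i a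

/-- `S` has type `(D, dV, dW)`: there are isomorphisms `A ≅ ⨁ᵢ End(Vᵢ)`, `B ≅ ⨁ⱼ End(Wⱼ)` with
`dim Vᵢ = dV i`, `dim Wⱼ = dW j`, and `L ≅ ⨁ᵢⱼ Hom(Vᵢ, Wⱼ) ^ (edges i j)` compatible with the
actions. -/
def HasType (S : MData L A B) (D : Diagram) (dV : Fin D.r → ℕ) (dW : Fin D.s → ℕ) : Prop :=
  ∃ (πA : ∀ i, A →ₐ[ℂ] Matrix (Fin (dV i)) (Fin (dV i)) ℂ)
    (πB : ∀ j, B →ₐ[ℂ] Matrix (Fin (dW j)) (Fin (dW j)) ℂ)
    (πL : ∀ i j, Fin (D.edges i j) → L →ₗ[ℂ] Matrix (Fin (dW j)) (Fin (dV i)) ℂ),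
    IsSplit dV πA ∧ IsSplit dW πB ∧ (Function.Bijective fun v i j k => πL i j k v) ∧
      LeftCompatible S D dV dW πB πL ∧ RightCompatible S D dV dW πA πL

/-- `S` corresponds to `(D, m)`: the dimensions of the `Vᵢ` and `Wⱼ` are `m J`. -/
def Corresponds (S : MData L A B) (D : Diagram) (m : ℕ) : Prop :=
  HasType S D (fun i => m * D.JV i) (fun j => m * D.JW j)

end

section linear_algebra

variable {n : Type*} [Fintype n] [DecidableEq n] [Nontrivial n]

omit [Fintype n] in
/-- A matrix of the form `u vᵀ` is a scalar only if it is zero. -/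
lemma rank_one_not_scalar (u v : n → ℂ) (t : ℂ) (h : vecMulVec u v = t • (1 : Matrix n n ℂ)) :
    vecMulVec u v = 0 := by
  have h0 : t = 0 := by
    by_contra ht
    obtain ⟨i, j, hij⟩ := exists_pair_ne n
    have h1 : ∀ k l, u k * v l = if k = l then t else 0 := fun k l => by
      have := congrFun (congrFun h k) l
      simpa [vecMulVec_apply, Matrix.one_apply] using this
    have hii := h1 i i
    have hjj := h1 j j
    have hij' := h1 i j
    rw [if_pos rfl] at hii hjj
    rw [if_neg hij] at hij'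
    rcases mul_eq_zero.1 hij' with h2 | h2
    · rw [h2, zero_mul] at hii; exact ht hii.symm
    · rw [h2, mul_zero] at hjj; exact ht hjj.symm
  rw [h, h0, zero_smul]

/-- A Kronecker module of dimension vector `(m, m)`, `m ≥ 2`, without kernel on the side of `W` has
an endomorphism `(a, b)` such that `a` is not a scalar. -/
theorem exists_endo (X Y : Matrix n n ℂ)
    (hfaith : ∀ b : Matrix n n ℂ, b * X = 0 → b * Y = 0 → b = 0) :
    ∃ a b : Matrix n n ℂ, X * a = b * X ∧ Y * a = b * Y ∧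
      ∀ t : ℂ, a ≠ t • (1 : Matrix n n ℂ) := by
  by_cases hX : IsUnit X.det
  · -- `X` is invertible
    have hinv : X⁻¹ * X = 1 := nonsing_inv_mul X hX
    have hinv' : X * X⁻¹ = 1 := mul_nonsing_inv X hX
    obtain ⟨a, hTa, hns⟩ : ∃ a : Matrix n n ℂ, (X⁻¹ * Y) * a = a * (X⁻¹ * Y) ∧
        ¬ ∃ t : ℂ, a = t • (1 : Matrix n n ℂ) := by
      by_cases hT : ∃ t : ℂ, X⁻¹ * Y = t • (1 : Matrix n n ℂ)
      · obtain ⟨t, ht⟩ := hT
        obtain ⟨i, j, hij⟩ := exists_pair_ne n
        refine ⟨vecMulVec (Pi.single i 1) (Pi.single i 1), by rw [ht]; simp, ?_⟩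
        rintro ⟨s, hs⟩
        have := congrFun (congrFun (rank_one_not_scalar _ _ s hs) i) i
        simp [vecMulVec_apply] at this
      · exact ⟨X⁻¹ * Y, rfl, hT⟩
    refine ⟨a, X * a * X⁻¹, ?_, ?_, ?_⟩
    · rw [mul_assoc, hinv, mul_one]
    · have : Y * a = X * (X⁻¹ * Y * a) := by
        rw [← mul_assoc, ← mul_assoc, hinv', one_mul]
      rw [this, hTa]; simp only [mul_assoc]
    · exact fun t ht => hns ⟨t, ht⟩
  · -- `X` is singular
    have hdet : X.det = 0 := by simpa using hX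
    obtain ⟨v, hv0, hv⟩ := exists_mulVec_eq_zero_iff.2 hdet
    obtain ⟨w, hw0, hw⟩ := exists_vecMul_eq_zero_iff.2 hdet
    refine ⟨vecMulVec v (w ᵥ* Y), vecMulVec (Y *ᵥ v) w, ?_, ?_, ?_⟩
    · rw [mul_vecMulVec, vecMulVec_mul, hv, hw]; simp
    · rw [mul_vecMulVec, vecMulVec_mul]
    · intro t ht
      have h0 := rank_one_not_scalar _ _ t ht
      obtain ⟨k, hk⟩ := Function.ne_iff.1 hv0
      have hwY : w ᵥ* Y = 0 := by
        ext l
        have := congrFun (congrFun h0 k) l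
        rw [vecMulVec_apply] at this
        rcases mul_eq_zero.1 this with h | h
        · exact absurd h hk
        · exact h
      have hb := hfaith (vecMulVec w w) (by rw [vecMulVec_mul, hw]; simp)
        (by rw [vecMulVec_mul, hwY]; simp)
      obtain ⟨l, hl⟩ := Function.ne_iff.1 hw0
      have := congrFun (congrFun hb l) l
      rw [vecMulVec_apply] at this
      exact hl (mul_self_eq_zero.1 this)

end linear_algebra

/-- For `m ≥ 2` no weak `M`-structure corresponds to `(Ã₁, m)`. -/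
theorem result (m : ℕ) (hm : 2 ≤ m) (L A B : Type) [AddCommGroup L] [Module ℂ L] [Ring A]
    [Algebra ℂ A] [Ring B] [Algebra ℂ B] (S : MData L A B) (hS : S.IsWeakMStructure) :
    ¬ Corresponds S affineA1 m := by
  obtain ⟨⟨hiA, hiB, hone, -, hinter⟩, ⟨-, hlB, hrA⟩, -⟩ := hS
  rintro ⟨eA, eB, eL, hsA, hsB, hsL, hl, hr⟩
  have hnt : Nontrivial (Fin (m * 1)) := by
    rw [mul_one]
    exact Fin.nontrivial_iff_two_le.2 hm
  let i0 : Fin affineA1.r := (0 : Fin 1)
  let j0 : Fin affineA1.s := (0 : Fin 1)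
  let k0 : Fin (affineA1.edges i0 j0) := (0 : Fin 2)
  let k1 : Fin (affineA1.edges i0 j0) := (1 : Fin 2)
  let X : Matrix (Fin (m * 1)) (Fin (m * 1)) ℂ := eL i0 j0 k0 (S.iA 1)
  let Y : Matrix (Fin (m * 1)) (Fin (m * 1)) ℂ := eL i0 j0 k1 (S.iA 1)
  have hA : ∀ a : A, ∀ k, eL i0 j0 k (S.iA a) = eL i0 j0 k (S.iA 1) * eA i0 a := fun a k => by
    have := hr a (S.iA 1) i0 j0 k
    rwa [hrA, one_mul] at this
  have hB : ∀ b : B, ∀ k, eL i0 j0 k (S.iB b) = eB j0 b * eL i0 j0 k (S.iA 1) := fun b k => by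
    have := hl b (S.iA 1) i0 j0 k
    rw [hone, hlB, mul_one] at this
    rw [hone]
    exact this
  have hext : ∀ v w : L, eL i0 j0 k0 v = eL i0 j0 k0 w → eL i0 j0 k1 v = eL i0 j0 k1 w → v = w := by
    intro v w h0 h1
    apply hsL.1
    funext i j k
    have hi : i = i0 := Subsingleton.elim (α := Fin 1) _ _
    have hj : j = j0 := Subsingleton.elim (α := Fin 1) _ _
    subst hi hj
    have hk : ∀ k : Fin 2, k = 0 ∨ k = 1 := by decide
    rcases hk k with rfl | rfl
    · exact h0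
    · exact h1
  obtain ⟨a, b, h1, h2, h3⟩ := exists_endo X Y (by
    intro b hb0 hb1
    obtain ⟨b', hb'⟩ := hsB.2 (fun _ => b)
    have hb'' : eB j0 b' = b := congrFun hb' j0
    have h0 : S.iB b' = S.iB 0 := by
      apply hext
      · rw [hB, hB, hb'', map_zero]
        exact hb0.trans (zero_mul _).symm
      · rw [hB, hB, hb'', map_zero]
        exact hb1.trans (zero_mul _).symm
    have := hiB h0
    rw [← hb'', this, map_zero]; rfl)
  obtain ⟨a', ha'⟩ := hsA.2 (fun _ => a)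
  obtain ⟨b', hb'⟩ := hsB.2 (fun _ => b)
  have ha'' : eA i0 a' = a := congrFun ha' i0
  have hb'' : eB j0 b' = b := congrFun hb' j0
  have hab : S.iA a' = S.iB b' := by
    apply hext
    · rw [hA, hB, ha'', hb'']; exact h1
    · rw [hA, hB, ha'', hb'']; exact h2
  obtain ⟨t, ht⟩ := hinter a' b' hab
  rw [← map_smul] at ht
  have ha1 := (hiA ht).symm
  apply h3 t
  rw [← ha'', ← ha1, map_smul, map_one]
  rfl

end Pool.Agent.Results.MP_b9cab9_al.NoKronecker
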